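import Pool.Agent.Y228.HX.Stm

set_option autoImplicit false

/-! # HX-SER: the series of an open simplicial cone -/

namespace Pool.Agent.Y625.HX

open Pool.Agent.Y228.HX

variable {R N : ℕ}

/-- the points of the relatively open cone at the level `k`, some coordinates at most `1` -/
def AA (v : Fin R → Fin N → ℕ) (I E : Finset (Fin R)) (k : ℕ) : Set (Fin N → ℤ) :=
  {x | ∃ l : Fin R → ℚ, (∀ j, j ∉ I → l j = 0) ∧ (∀ j ∈ I, 0 < l j) ∧ (∀ j ∈ E, l j ≤ 1) ∧
    (∀ i, (x i : ℚ) = ∑ j, l j * (v j i : ℚ)) ∧ (k : ℚ) = ∑ j, l j}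

theorem AA_empty (v : Fin R → Fin N → ℕ) (I : Finset (Fin R)) (k : ℕ) :
    AA v I ∅ k = Rel v I k := by
  ext x
  constructor
  · rintro ⟨l, h1, h2, -, h4, h5⟩
    exact ⟨l, h1, h2, h4, h5⟩
  · rintro ⟨l, h1, h2, h4, h5⟩
    exact ⟨l, h1, h2, fun j hj => absurd hj (Finset.notMem_empty j), h4, h5⟩

theorem AA_finite (v : Fin R → Fin N → ℕ) (I E : Finset (Fin R)) (k : ℕ) :
    (AA v I E k).Finite := by
  refine (Set.finite_Icc (0 : Fin N → ℤ) (fun i => (k : ℤ) * ∑ j, (v j i : ℤ))).subset ?_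
  rintro x ⟨l, h1, h2, -, h4, h5⟩
  have hl0 : ∀ j, 0 ≤ l j := by
    intro j
    by_cases hj : j ∈ I
    · exact (h2 j hj).le
    · rw [h1 j hj]
  have hlk : ∀ j, l j ≤ k := by
    intro j
    rw [h5]
    exact Finset.single_le_sum (fun j _ => hl0 j) (Finset.mem_univ j)
  constructor
  · intro i
    have : (0 : ℚ) ≤ (x i : ℚ) := by
      rw [h4 i]
      exact Finset.sum_nonneg fun j _ => mul_nonneg (hl0 j) (Nat.cast_nonneg _)
    exact_mod_cast this
  · intro i
    have : (x i : ℚ) ≤ (k : ℚ) * ∑ j, (v j i : ℚ) := by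
      rw [h4 i, Finset.mul_sum]
      exact Finset.sum_le_sum fun j _ => mul_le_mul_of_nonneg_right (hlk j) (Nat.cast_nonneg _)
    exact_mod_cast this

theorem AA_unique {v : Fin R → Fin N → ℕ} {I : Finset (Fin R)} (hI : Ind v I) {l l' : Fin R → ℚ}
    (h1 : ∀ j, j ∉ I → l j = 0) (h1' : ∀ j, j ∉ I → l' j = 0) {x : Fin N → ℤ} {k : ℕ}
    (h4 : ∀ i, (x i : ℚ) = ∑ j, l j * (v j i : ℚ)) (h5 : (k : ℚ) = ∑ j, l j)
    (h4' : ∀ i, (x i : ℚ) = ∑ j, l' j * (v j i : ℚ)) (h5' : (k : ℚ) = ∑ j, l' j) : l = l' := by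
  have h := hI (fun j => l j - l' j) ⟨fun j hj => by
    change l j - l' j = 0
    rw [h1 j hj, h1' j hj, sub_self], by
    rw [Finset.sum_sub_distrib, ← h5, ← h5', sub_self], fun i => by
    simp only [sub_mul]
    rw [Finset.sum_sub_distrib, ← h4 i, ← h4' i, sub_self]⟩
  funext j
  have := congrFun h j
  simp only [Pi.zero_apply] at this
  linarith

/-- the point of the lattice -/
def vz (v : Fin R → Fin N → ℕ) (j : Fin R) : Fin N → ℤ := fun i => (v j i : ℤ)

theorem AA_step {v : Fin R → Fin N → ℕ} {I : Finset (Fin R)} (hI : Ind v I)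
    {E : Finset (Fin R)} {j : Fin R} (hj : j ∈ I) (hjE : j ∉ E) (k : ℕ) :
    (AA v I E (k + 1)).ncard = (AA v I (insert j E) (k + 1)).ncard + (AA v I E k).ncard := by
  classical
  have hsum : ∀ (l : Fin R → ℚ) (c : ℚ) (f : Fin R → ℚ),
      ∑ j', (l j' + if j' = j then c else 0) * f j' = ∑ j', l j' * f j' + c * f j := by
    intro l c f
    simp only [add_mul, Finset.sum_add_distrib]
    congr 1
    rw [Finset.sum_eq_single j]
    · simp
    · intro b _ hb; simp [hb]
    · intro h; exact absurd (Finset.mem_univ j) h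
  have hsum1 : ∀ (l : Fin R → ℚ) (c : ℚ), ∑ j', (l j' + if j' = j then c else 0) =
      ∑ j', l j' + c := by
    intro l c
    have := hsum l c (fun _ => 1)
    simpa using this
  have hun : AA v I E (k + 1) = AA v I (insert j E) (k + 1) ∪ (fun x => x + vz v j) '' AA v I E k := by
    ext x
    constructor
    · rintro ⟨l, h1, h2, h3, h4, h5⟩
      by_cases hl : l j ≤ 1
      · left
        refine ⟨l, h1, h2, ?_, h4, h5⟩
        intro j' hj'
        rcases Finset.mem_insert.mp hj' with rfl | hj'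
        · exact hl
        · exact h3 j' hj'
      · right
        push Not at hl
        refine ⟨x - vz v j, ⟨fun j' => l j' + if j' = j then -1 else 0, ?_, ?_, ?_, ?_, ?_⟩, ?_⟩
        · intro j' hj'
          have : j' ≠ j := fun h => hj' (h ▸ hj)
          simp [this, h1 j' hj']
        · intro j' hj'
          by_cases h : j' = j
          · subst h; simp only [if_true]; linarith
          · simp only [if_neg h, add_zero]; exact h2 j' hj'
        · intro j' hj'
          have : j' ≠ j := fun h => hjE (h ▸ hj')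
          simp only [if_neg this, add_zero]; exact h3 j' hj'
        · intro i
          rw [hsum l (-1) (fun j' => (v j' i : ℚ)), ← h4 i]
          simp [vz]
          ring
        · rw [hsum1, ← h5]
          push_cast
          ring
        · simp
    · rintro (⟨l, h1, h2, h3, h4, h5⟩ | ⟨y, ⟨l, h1, h2, h3, h4, h5⟩, rfl⟩)
      · exact ⟨l, h1, h2, fun j' hj' => h3 j' (Finset.mem_insert_of_mem hj'), h4, h5⟩
      · refine ⟨fun j' => l j' + if j' = j then 1 else 0, ?_, ?_, ?_, ?_, ?_⟩
        · intro j' hj'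
          have : j' ≠ j := fun h => hj' (h ▸ hj)
          simp [this, h1 j' hj']
        · intro j' hj'
          have := h2 j' hj'
          by_cases h : j' = j
          · simp only [if_pos h]; linarith
          · simp only [if_neg h, add_zero]; exact this
        · intro j' hj'
          have : j' ≠ j := fun h => hjE (h ▸ hj')
          simp only [if_neg this, add_zero]; exact h3 j' hj'
        · intro i
          rw [hsum l 1 (fun j' => (v j' i : ℚ)), ← h4 i]
          simp [vz]
        · rw [hsum1, ← h5]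
          push_cast
          ring
  have hdis : Disjoint (AA v I (insert j E) (k + 1)) ((fun x => x + vz v j) '' AA v I E k) := by
    rw [Set.disjoint_left]
    rintro x ⟨l, h1, h2, h3, h4, h5⟩ ⟨y, ⟨l', h1', h2', h3', h4', h5'⟩, hxy⟩
    have he : l = fun j' => l' j' + if j' = j then 1 else 0 := by
      refine AA_unique hI h1 ?_ h4 h5 ?_ ?_
      · intro j' hj'
        have : j' ≠ j := fun h => hj' (h ▸ hj)
        simp [this, h1' j' hj']
      · intro i
        rw [hsum l' 1 (fun j' => (v j' i : ℚ)), ← h4' i, ← hxy]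
        simp [vz]
      · rw [hsum1, ← h5']
        push_cast
        ring
    have h6 := h3 j (Finset.mem_insert_self j E)
    have h7 : l j = l' j + 1 := by rw [he]; simp
    have h8 := h2' j hj
    linarith
  rw [hun, Set.ncard_union_eq hdis (AA_finite _ _ _ _) ((AA_finite _ _ _ _).image _),
    Set.ncard_image_of_injective _ (add_left_injective _)]

theorem AA_zero {v : Fin R → Fin N → ℕ} {I : Finset (Fin R)} {E : Finset (Fin R)} {j : Fin R}
    (hj : j ∈ I) : AA v I E 0 = ∅ := by
  rw [Set.eq_empty_iff_forall_notMem]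
  rintro x ⟨l, h1, h2, -, h4, h5⟩
  have hl0 : ∀ j, 0 ≤ l j := by
    intro j
    by_cases hj : j ∈ I
    · exact (h2 j hj).le
    · rw [h1 j hj]
  have h6 : l j ≤ ∑ j, l j := Finset.single_le_sum (fun j _ => hl0 j) (Finset.mem_univ j)
  rw [← h5] at h6
  have := h2 j hj
  push_cast at h6
  linarith

theorem ser_step {v : Fin R → Fin N → ℕ} {I : Finset (Fin R)} (hI : Ind v I)
    {E : Finset (Fin R)} {j : Fin R} (hj : j ∈ I) (hjE : j ∉ E) :
    (1 - PowerSeries.X) * PowerSeries.mk (fun k => ((AA v I E k).ncard : ℚ)) =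
      PowerSeries.mk (fun k => ((AA v I (insert j E) k).ncard : ℚ)) := by
  ext k
  rw [sub_mul, one_mul, map_sub, PowerSeries.coeff_mk, PowerSeries.coeff_mk]
  cases k with
  | zero =>
    rw [PowerSeries.coeff_zero_X_mul, AA_zero hj, AA_zero hj, sub_zero]
  | succ k =>
    rw [mul_comm, PowerSeries.coeff_succ_mul_X, PowerSeries.coeff_mk, AA_step hI hj hjE]
    push_cast
    ring

theorem ser_all {v : Fin R → Fin N → ℕ} {I : Finset (Fin R)} (hI : Ind v I)
    (E : Finset (Fin R)) (hE : E ⊆ I) :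
    (1 - PowerSeries.X) ^ E.card * PowerSeries.mk (fun k => ((AA v I ∅ k).ncard : ℚ)) =
      PowerSeries.mk (fun k => ((AA v I E k).ncard : ℚ)) := by
  classical
  induction E using Finset.induction_on with
  | empty => simp
  | insert j E hj ih =>
    rw [Finset.card_insert_of_notMem hj, pow_succ', mul_assoc,
      ih (fun x hx => hE (Finset.mem_insert_of_mem hx)),
      ser_step hI (hE (Finset.mem_insert_self j E)) hj]

theorem box_card (v : Fin R → Fin N → ℕ) (I : Finset (Fin R)) (k : ℕ) :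
    nBox1 v I k = (AA v I I k).ncard := by
  unfold nBox1
  have h : {y : (Fin N → ℤ) × ℤ | y ∈ Box1 v I ∧ y.2 = k} =
      (fun x : Fin N → ℤ => (x, (k : ℤ))) '' AA v I I k := by
    ext y
    constructor
    · rintro ⟨⟨l, h1, h2, h3, h4⟩, h5⟩
      refine ⟨y.1, ⟨l, h1, fun j hj => (h2 j hj).1, fun j hj => (h2 j hj).2, h3, ?_⟩, ?_⟩
      · rw [← h4, h5]; simp
      · exact Prod.ext rfl h5.symm
    · rintro ⟨x, ⟨l, h1, h2, h3, h4, h5⟩, rfl⟩
      exact ⟨⟨l, h1, fun j hj => ⟨h2 j hj, h3 j hj⟩, h4, by rw [← h5]; simp⟩, rfl⟩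
  rw [h]
  exact Set.ncard_image_of_injective _ (fun a b hab => (Prod.mk.inj hab).1)

theorem AA_large (v : Fin R → Fin N → ℕ) (I : Finset (Fin R)) {k : ℕ} (hk : R < k) :
    AA v I I k = ∅ := by
  rw [Set.eq_empty_iff_forall_notMem]
  rintro x ⟨l, h1, h2, h3, h4, h5⟩
  have h6 : ∑ j, l j ≤ ∑ _j : Fin R, (1 : ℚ) := by
    apply Finset.sum_le_sum
    intro j _
    by_cases hj : j ∈ I
    · exact h3 j hj
    · rw [h1 j hj]; exact zero_le_one
  rw [← h5] at h6
  simp at h6
  omega

/-- HX-SER -/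
theorem t_SER : S_SER := by
  intro R N v I hI
  refine ⟨fun k => ?_, ?_⟩
  · rw [← AA_empty]; exact AA_finite _ _ _ _
  · have h := ser_all hI I (Finset.Subset.refl I)
    simp only [AA_empty] at h
    rw [h]
    ext k
    rw [PowerSeries.coeff_mk, Polynomial.coeff_coe, P1, Polynomial.finsetSum_coeff]
    simp only [Polynomial.coeff_C_mul, Polynomial.coeff_X_pow, mul_ite, mul_one, mul_zero]
    rw [Finset.sum_ite_eq]
    by_cases hk : k ∈ Finset.range (R + 1)
    · rw [if_pos hk, box_card]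
    · rw [if_neg hk, AA_large v I (by rw [Finset.mem_range] at hk; omega)]
      simp

end Pool.Agent.Y625.HX
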